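import Pool.Agent.H603GI.Core
import Pool.Agent.Results.MP_042ec1_co.S123Bounded
import Pool.Agent.Results.MP_042ec1_co.BoundedCw
import Pool.Agent.Results.MP_41f2d3_co.DiamondP1P2P3
import Pool.Agent.Results.MP_41f2d3_co.DiamondP1P5
import Pool.Agent.H175F.Col

/-!
# GRAPH ISOMORPHISM is in P for five pairs of forbidden induced subgraphs
-/

namespace Pool.Agent.Results.MP_f1a348_lc.ForbiddenPairs

open Pool.Agent.H603GI Pool.Agent.Helper856.Cw

/-- `G` is `(K₃, S_{1,2,3})`-free, `(K₃, P₁ + S_{1,1,3})`-free, `(diamond, P₁ + P₂ + P₃)`-free,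
`(diamond, P₁ + P₅)`-free or `(gem, P₂ + P₃)`-free (induced subgraphs). -/
def InClass {V : Type} (G : SimpleGraph V) : Prop :=
  (G.CliqueFree 3 ∧ ¬ Pool.Agent.H333R2.St.S123.IsIndContained G) ∨
  (G.CliqueFree 3 ∧ ¬ Pool.Agent.Helper856.Lcw.P1_S113.IsIndContained G) ∨
  (¬ Pool.Agent.Helper856.PairStmt.Diamond.IsIndContained G ∧
    ¬ Pool.Agent.Helper856.PairStmt.P1_P2_P3.IsIndContained G) ∨
  (¬ Pool.Agent.Helper856.PairStmt.Diamond.IsIndContained G ∧
    ¬ Pool.Agent.Helper856.PairStmt.P1_P5.IsIndContained G) ∨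
  (¬ Pool.Agent.H175G.Col.Gem.IsIndContained G ∧ ¬ Pool.Agent.H175G.Col.P2_P3.IsIndContained G)

theorem bounded : ∃ c : ℕ, ∀ (V : Type) [Finite V] (G : SimpleGraph V), InClass G →
    cliqueWidth G ≤ c := by
  obtain ⟨c₁, h₁⟩ := Pool.Agent.Results.MP_042ec1_co.S123Bounded.result
  obtain ⟨c₂, h₂⟩ := Pool.Agent.Results.MP_042ec1_co.BoundedCw.result
  obtain ⟨c₃, h₃⟩ := Pool.Agent.Results.MP_41f2d3_co.DiamondP1P2P3.result
  obtain ⟨c₄, h₄⟩ := Pool.Agent.Results.MP_41f2d3_co.DiamondP1P5.result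
  obtain ⟨c₅, h₅⟩ := Pool.Agent.H175G.Col.cw_bound Pool.Agent.H175G.main_stmt
  refine ⟨c₁ + c₂ + c₃ + c₄ + c₅, fun V _ G hG => ?_⟩
  rcases hG with ⟨a, b⟩ | ⟨a, b⟩ | ⟨a, b⟩ | ⟨a, b⟩ | h
  · have := h₁ V G a b
    omega
  · have := (h₂ V G a b).1
    omega
  · have := (h₃ V G a b).1
    omega
  · have := (h₄ V G a b).1
    omega
  · have := h₅ V G h
    omega

/-- One polynomial-time Turing machine decides whether two graphs (given by adjacency matrices) are
isomorphic, whenever the first graph or its complement belongs to one of the five classes. -/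
theorem result : GIInPOn (fun _ G => InClass G ∨ InClass Gᶜ) := by
  obtain ⟨c, hc⟩ := bounded
  refine giInPOn_of_dec (k := c) fun V _ G hG => ?_
  rcases hG with h | h
  · exact dec_of_cliqueWidth (hc V G h)
  · refine (dec_of_cliqueWidth (hc V Gᶜ h)).imp id fun hd => ?_
    have h1 := hd.compl
    rwa [compl_compl] at h1

end Pool.Agent.Results.MP_f1a348_lc.ForbiddenPairs
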