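import Pool.Agent.H550R2.SymGI.Main

set_option autoImplicit false

/-! # Locally symmetric networks for graph isomorphism

A network reading two graphs on the vertex set `V` (a graph on two disjoint copies of `V`) is
symmetric on a block of five vertices of the first graph if every even permutation of the block,
fixing all other vertices of both graphs, extends to an automorphism of the network.

Lower bound: a network (with gates computing arbitrary functions of the number of their true
inputs) that decides isomorphism of two graphs on `V` of maximum degree at most nine, and that is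
symmetric on each of `r` disjoint blocks, has at least `5 ^ (r / 7000)` gates.

Upper bound: a network of NAND gates with `s` gates for graph isomorphism can be made symmetric on
any `r` disjoint blocks at the cost of a factor `60 ^ r` in size.

So polynomial size allows symmetry on `Θ(log n)` blocks and not more. -/

namespace Pool.Agent.Results.MP_f1a348_lc.LocalSymmetry

open Pool.Agent.H545R2 Pool.Agent.H550R2.SymGI

theorem result :
    (∀ (V Gt : Type) [Fintype V] [Fintype Gt] (N : Net (V ⊕ V) Gt),
      (∀ G H : SimpleGraph V, Deg9 G → Deg9 H →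
        (N.val (G ⊕g H) N.out = true ↔ Nonempty (G ≃g H))) →
      ∀ (r : ℕ) (blk : Fin r → (Fin 5 ↪ V)),
        (Pairwise fun i j => Disjoint (Set.range (blk i)) (Set.range (blk j))) →
        (∀ i, N.SymOn (fstBlk (blk i))) → 5 ^ (r / 7000) ≤ Fintype.card Gt) ∧
    (∀ (V Gt : Type) [Fintype V] [Fintype Gt] (N : Net (V ⊕ V) Gt), N.IsNand →
      (∀ G H : SimpleGraph V, (N.val (G ⊕g H) N.out = true ↔ Nonempty (G ≃g H))) →
      ∀ (r : ℕ) (blk : Fin r → (Fin 5 ↪ V)),
        (Pairwise fun i j => Disjoint (Set.range (blk i)) (Set.range (blk j))) →
        ∃ (Gt' : Type) (_ : Fintype Gt') (N' : Net (V ⊕ V) Gt'), N'.IsNand ∧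
          (∀ G H : SimpleGraph V, (N'.val (G ⊕g H) N'.out = true ↔ Nonempty (G ≃g H))) ∧
          (∀ i, N'.SymOn (fstBlk (blk i))) ∧
          Fintype.card Gt' = 60 ^ r * (Fintype.card Gt + 1) + 1) :=
  ⟨fun V Gt _ _ N hN r blk hd hs => lower_pair V Gt N hN r blk hd hs,
    fun V Gt _ _ N hnand hN r blk hd => upper_pair V Gt N hnand hN r blk hd⟩

end Pool.Agent.Results.MP_f1a348_lc.LocalSymmetry
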