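import Pool.Agent.Helper600R2.GI.Family

/-!
Exponential lower bounds for constant-depth Frege proofs with `MOD p` gates of the
non-isomorphism of explicit pairs of graphs.
-/

set_option linter.unusedSectionVars false

namespace Pool.Agent.Results.MP_f1a348_lc.ModProofs

open Finset Filter Pool.Agent.Helper600R2.Cnt

lemma depth_sub {p : ℕ} {α : Type} (φ : Fm p α) : ∀ χ ∈ φ.sub, χ.depth ≤ φ.depth := by
  classical
  induction φ with
  | var a =>
    intro χ hχ
    simp only [Fm.sub, mem_singleton] at hχ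
    rw [hχ]
  | neg φ ih =>
    intro χ hχ
    simp only [Fm.sub, mem_insert] at hχ
    rcases hχ with rfl | hχ
    · exact le_rfl
    · have := ih χ hχ
      simp only [Fm.depth]
      omega
  | or t φs ih =>
    intro χ hχ
    simp only [Fm.sub, mem_insert, mem_biUnion, mem_univ, true_and] at hχ
    rcases hχ with rfl | ⟨j, hj⟩
    · exact le_rfl
    · have h1 := ih j χ hj
      have h2 := Finset.le_sup (f := fun j => (φs j).depth) (mem_univ j)
      simp only [Fm.depth]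
      omega
  | md i t φs ih =>
    intro χ hχ
    simp only [Fm.sub, mem_insert, mem_biUnion, mem_univ, true_and] at hχ
    rcases hχ with rfl | ⟨j, hj⟩
    · exact le_rfl
    · have h1 := ih j χ hj
      have h2 := Finset.le_sup (f := fun j => (φs j).depth) (mem_univ j)
      simp only [Fm.depth]
      omega

lemma depth_allSub {p T : ℕ} {α : Type} (L : Fin T → Fm p α) {d : ℕ}
    (h : ∀ i, (L i).depth ≤ d) : ∀ φ ∈ allSub L, φ.depth ≤ d := by
  classical
  intro φ hφ
  simp only [allSub, mem_biUnion, mem_univ, true_and] at hφ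
  obtain ⟨i, hi⟩ := hφ
  exact (depth_sub (L i) φ hi).trans (h i)

lemma rt_tendsto : Tendsto rt atTop atTop := by
  refine tendsto_atTop.mpr (fun b => ?_)
  filter_upwards [eventually_ge_atTop (b ^ 8)] with n hn
  by_contra h
  push Not at h
  have h1 := lt_rt n
  have h2 : (rt n + 1) ^ 8 ≤ b ^ 8 := Nat.pow_le_pow_left h 8
  omega

lemma Nn_tendsto (q : ℕ) : Tendsto (Nn q) atTop atTop := by
  refine tendsto_atTop.mpr (fun b => ?_)
  filter_upwards [(tendsto_atTop.mp rt_tendsto) (b + 1)] with n hn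
  have := le_Nn q n
  omega

/-- Let `q ≥ 2`. There are two sequences of graphs `G n` and `H n` on `n` vertices, not
isomorphic for large `n`, such that for every prime `p` not dividing `q` and all `d` and `c`
there is `ε > 0` such that for all large `n`: every refutation of the isomorphism of `G n` and
`H n` by `c`-local inferences, in which all lines are formulas (with `MOD p` connectives) of
depth at most `d` and no subformula has more than `n ^ ε` maximal `MOD p` subformulas, has at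
least `2 ^ (n ^ ε)` distinct subformulas. -/
theorem result (q : ℕ) (hq : 2 ≤ q) :
    ∃ G H : ∀ n : ℕ, SimpleGraph (Fin n),
      (∃ n₁ : ℕ, ∀ n : ℕ, n₁ ≤ n → IsEmpty (G n ≃g H n)) ∧
      ∀ p : ℕ, p.Prime → ¬ p ∣ q → ∀ d c : ℕ,
        ∃ ε : ℝ, 0 < ε ∧ ∃ n₀ : ℕ, ∀ n : ℕ, n₀ ≤ n →
          ∀ (T : ℕ) (L : Fin T → Fm p (Fin n × Fin n)), RefutesIso c (G n) (H n) L →
            (∀ i, (L i).depth ≤ d) →
            (∀ φ ∈ allSub L, (φ.tops.card : ℝ) ≤ (n : ℝ) ^ ε) →
            (2 : ℝ) ^ ((n : ℝ) ^ ε) ≤ ((allSub L).card : ℝ) := by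
  have : NeZero q := ⟨by omega⟩
  refine ⟨fam2 q 0, fam2 q 1, ?_, ?_⟩
  · obtain ⟨n₁, hn₁⟩ := eventually_atTop.mp ((tendsto_atTop.mp (Nn_tendsto q)) (8 * q ^ 5))
    exact ⟨n₁, fun n hn => fam2_not_iso hq (hn₁ n hn)⟩
  · intro p hp hpq d c
    obtain ⟨C, hC0, hC⟩ := iso_core q hq p hp hpq d c
    set W : ℕ := (2 * (q * q + q) + 4) ^ (d + 4) with hW
    have hW0 : 0 < W := by positivity
    set D : ℕ := d + 4 + 2 with hD
    set e : ℕ := D * W with he
    have he0 : 0 < e := Nat.mul_pos (by omega) hW0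
    have her : (0 : ℝ) < e := by exact_mod_cast he0
    set ε : ℝ := 1 / (32 * e) with hε
    have hε0 : 0 < ε := by positivity
    set C4 : ℕ := (C * (2 * q) ^ D) ^ W with hC4
    refine ⟨ε, hε0, ?_⟩
    -- eventual conditions
    have ev1 := (tendsto_atTop.mp (Nn_tendsto q)) (8 * q ^ 5 + 2)
    have ev2 : ∀ᶠ n : ℕ in atTop, C4 ^ 32 + 100 ≤ n := eventually_ge_atTop _
    have hpow : Tendsto (fun n : ℕ => (n : ℝ) ^ ε) atTop atTop :=
      (tendsto_rpow_atTop hε0).comp tendsto_natCast_atTop_atTop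
    have ev3 : ∀ᶠ n : ℕ in atTop, (4 : ℝ) ≤ (n : ℝ) ^ ε := hpow.eventually_ge_atTop 4
    have ev4 : ∀ᶠ n : ℕ in atTop, (n : ℝ) ^ (2 * q + 1 : ℝ) ≤ (2 : ℝ) ^ ((n : ℝ) ^ ε) := by
      have h1 := (isLittleO_rpow_exp_pos_mul_atTop ((2 * q + 1 : ℝ) / ε)
        (Real.log_pos (by norm_num : (1 : ℝ) < 2))).comp_tendsto hpow
      have h2 := h1.bound (c := 1) one_pos
      filter_upwards [h2] with n hn
      simp only [Function.comp_apply, Real.norm_eq_abs, one_mul] at hn
      have h3 : ((n : ℝ) ^ ε) ^ ((2 * q + 1 : ℝ) / ε) = (n : ℝ) ^ (2 * q + 1 : ℝ) := by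
        rw [← Real.rpow_mul (Nat.cast_nonneg n)]
        congr 1
        field_simp
      have h4 : (2 : ℝ) ^ ((n : ℝ) ^ ε) = Real.exp (Real.log 2 * (n : ℝ) ^ ε) :=
        Real.rpow_def_of_pos (by norm_num) _
      rw [h3, abs_of_nonneg (by positivity), abs_of_nonneg (Real.exp_pos _).le] at hn
      rw [h4]
      exact hn
    obtain ⟨n₀, hn₀⟩ := eventually_atTop.mp (ev1.and (ev2.and (ev3.and ev4)))
    refine ⟨n₀, ?_⟩
    intro n hn T L href hdepth htops
    obtain ⟨c1, c2, c3, c4⟩ := hn₀ n hn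
    have hn1 : (1 : ℝ) ≤ n := by
      have : 1 ≤ n := by omega
      exact_mod_cast this
    set Y : ℕ := ⌊(n : ℝ) ^ ε⌋₊ + 1 with hY
    have hY1 : (Y : ℝ) ≤ 2 * (n : ℝ) ^ ε := by
      have := Nat.floor_le (by linarith : 0 ≤ (n : ℝ) ^ ε)
      rw [hY]; push_cast; linarith
    have hY2 : (n : ℝ) ^ ε < Y := by
      rw [hY]; push_cast; exact Nat.lt_floor_add_one _
    have hY4 : 4 ≤ Y := by
      have : (4 : ℝ) < Y := lt_of_le_of_lt c3 hY2
      have : 4 < Y := by exact_mod_cast this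
      omega
    have hNn : (n : ℝ) ^ (1 / 16 : ℝ) ≤ Nn q n := by
      have h1 : n ≤ (Nn q n) ^ 16 := by
        have h2 := lt_rt n
        have h3 := le_Nn q n
        have h4 : (rt n + 1) ^ 8 ≤ (2 * Nn q n) ^ 8 := Nat.pow_le_pow_left (by omega) 8
        have h5 : (2 * Nn q n) ^ 8 = 2 ^ 8 * Nn q n ^ 8 := by rw [mul_pow]
        have h6 : 2 ^ 8 ≤ Nn q n ^ 8 := Nat.pow_le_pow_left (by omega) 8
        have h7 : 2 ^ 8 * Nn q n ^ 8 ≤ Nn q n ^ 8 * Nn q n ^ 8 := Nat.mul_le_mul_right _ h6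
        have h8 : Nn q n ^ 8 * Nn q n ^ 8 = Nn q n ^ 16 := by rw [← pow_add]
        omega
      calc (n : ℝ) ^ (1 / 16 : ℝ) ≤ (((Nn q n) ^ 16 : ℕ) : ℝ) ^ (1 / 16 : ℝ) :=
            Real.rpow_le_rpow (Nat.cast_nonneg n) (by exact_mod_cast h1) (by norm_num)
        _ = ((Nn q n : ℝ) ^ (16 : ℝ)) ^ (1 / 16 : ℝ) := by
            push_cast
            congr 1
            rw [← Real.rpow_natCast]
            norm_num
        _ = Nn q n := by
            rw [← Real.rpow_mul (Nat.cast_nonneg _)]; norm_num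
    have hbig : (C * (q * Y) ^ D) ^ W ≤ Nn q n := by
      have h1 : (((C * (q * Y) ^ D) ^ W : ℕ) : ℝ) ≤ (Nn q n : ℝ) := by
        push_cast
        have h2 : ((C : ℝ) * (q * Y) ^ D) ^ W ≤ ((C : ℝ) * (q * (2 * (n : ℝ) ^ ε)) ^ D) ^ W := by
          apply pow_le_pow_left₀ (by positivity)
          apply mul_le_mul_of_nonneg_left _ (by positivity)
          apply pow_le_pow_left₀ (by positivity)
          exact mul_le_mul_of_nonneg_left hY1 (by positivity)
        refine h2.trans ?_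
        have h3 : ((C : ℝ) * (q * (2 * (n : ℝ) ^ ε)) ^ D) ^ W =
            (C4 : ℝ) * ((n : ℝ) ^ ε) ^ e := by
          rw [hC4, he, pow_mul ((n : ℝ) ^ ε)]
          push_cast
          rw [← mul_pow]
          congr 1
          ring
        have h4 : ((n : ℝ) ^ ε) ^ e = (n : ℝ) ^ (1 / 32 : ℝ) := by
          rw [← Real.rpow_natCast, ← Real.rpow_mul (by linarith)]
          congr 1
          rw [hε]; field_simp
        have h5 : (C4 : ℝ) ≤ (n : ℝ) ^ (1 / 32 : ℝ) := by
          calc (C4 : ℝ) = ((C4 : ℝ) ^ (32 : ℝ)) ^ (1 / 32 : ℝ) := by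
                rw [← Real.rpow_mul (Nat.cast_nonneg _)]; norm_num
            _ = (((C4 ^ 32 : ℕ) : ℝ)) ^ (1 / 32 : ℝ) := by
                push_cast
                congr 1
                rw [← Real.rpow_natCast]
                norm_num
            _ ≤ (n : ℝ) ^ (1 / 32 : ℝ) := by
                apply Real.rpow_le_rpow (Nat.cast_nonneg _) _ (by norm_num)
                have : C4 ^ 32 ≤ n := by omega
                exact_mod_cast this
        rw [h3, h4]
        calc (C4 : ℝ) * (n : ℝ) ^ (1 / 32 : ℝ)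
            ≤ (n : ℝ) ^ (1 / 32 : ℝ) * (n : ℝ) ^ (1 / 32 : ℝ) := by
              apply mul_le_mul_of_nonneg_right h5 (by positivity)
          _ = (n : ℝ) ^ (1 / 16 : ℝ) := by
              rw [← Real.rpow_add (by linarith)]; norm_num
          _ ≤ _ := hNn
      exact_mod_cast h1
    have hmain := hC n Y hY4 (by omega) hbig T L href (depth_allSub L hdepth) (by
      intro φ hφ
      have := Nat.le_floor (htops φ hφ)
      omega)
    -- the small set
    have hS : ((n ^ 2 + 4 * (n ^ q + 1) ^ 2 : ℕ) : ℝ) ≤ (2 : ℝ) ^ ((n : ℝ) ^ ε) := by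
      refine le_trans ?_ c4
      have h1 : n ^ 2 + 4 * (n ^ q + 1) ^ 2 ≤ n ^ (2 * q + 1) := by
        have hnn : 100 ≤ n := by omega
        have h2 : 1 ≤ n ^ q := Nat.one_le_pow _ _ (by omega)
        have h3 : n ^ 2 ≤ n ^ (2 * q) := Nat.pow_le_pow_right (by omega) (by omega)
        have h4 : n ^ (2 * q) = n ^ q * n ^ q := by rw [← pow_add]; congr 1; omega
        have h5 : n ^ (2 * q + 1) = n ^ (2 * q) * n := pow_succ _ _
        have h6 : (n ^ q + 1) ^ 2 ≤ 4 * (n ^ q * n ^ q) := by nlinarith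
        have h7 : n ^ (2 * q) * 100 ≤ n ^ (2 * q) * n := Nat.mul_le_mul_left _ hnn
        rw [← h4] at h6
        omega
      calc ((n ^ 2 + 4 * (n ^ q + 1) ^ 2 : ℕ) : ℝ) ≤ ((n ^ (2 * q + 1) : ℕ) : ℝ) := by
            exact_mod_cast h1
        _ = (n : ℝ) ^ (2 * q + 1 : ℝ) := by
            push_cast
            rw [← Real.rpow_natCast]
            push_cast
            rfl
    by_contra hcon
    push Not at hcon
    have h1 : (16 : ℝ) ^ Y < (((allSub L).card : ℝ) + ((n ^ 2 + 4 * (n ^ q + 1) ^ 2 : ℕ) : ℝ)) *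
        2 ^ (Y - 1) := by exact_mod_cast hmain
    have h2 : (2 : ℝ) ^ ((n : ℝ) ^ ε) ≤ 2 ^ Y := by
      calc (2 : ℝ) ^ ((n : ℝ) ^ ε) ≤ 2 ^ (Y : ℝ) :=
            Real.rpow_le_rpow_of_exponent_le (by norm_num) hY2.le
        _ = 2 ^ Y := Real.rpow_natCast _ _
    have h3 : ((allSub L).card : ℝ) + ((n ^ 2 + 4 * (n ^ q + 1) ^ 2 : ℕ) : ℝ) ≤ 2 * 2 ^ Y := by
      linarith
    have h4 : (2 : ℝ) ^ (Y - 1) ≤ 2 ^ Y := pow_le_pow_right₀ (by norm_num) (Nat.sub_le _ _)
    have h5 : (16 : ℝ) ^ Y < 2 * 2 ^ Y * 2 ^ Y := by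
      refine h1.trans_le ?_
      exact mul_le_mul h3 h4 (by positivity) (by positivity)
    have h6 : (2 : ℝ) * 2 ^ Y * 2 ^ Y ≤ 16 ^ Y := by
      have e1 : (16 : ℝ) ^ Y = 2 ^ Y * 2 ^ Y * (2 ^ Y * 2 ^ Y) := by
        rw [← mul_pow, ← mul_pow]; norm_num
      have e2 : (2 : ℝ) ≤ 2 ^ Y := by
        calc (2 : ℝ) = 2 ^ 1 := by norm_num
          _ ≤ 2 ^ Y := pow_le_pow_right₀ (by norm_num) (by omega)
      have e3 : (2 : ℝ) ≤ 2 ^ Y * 2 ^ Y := by nlinarith
      rw [e1]
      calc (2 : ℝ) * 2 ^ Y * 2 ^ Y = 2 ^ Y * 2 ^ Y * 2 := by ring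
        _ ≤ _ := mul_le_mul_of_nonneg_left e3 (by positivity)
    linarith

end Pool.Agent.Results.MP_f1a348_lc.ModProofs
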