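import Pool.Agent.H529R2.WLI.WL
set_option autoImplicit false

/-! # The number of rounds of the Weisfeiler-Leman algorithm

The `k`-dimensional Weisfeiler-Leman algorithm colours the `k`-tuples of vertices of a graph, first by
their atomic types (`atomicG`), and then refines the colouring in rounds (`refine`): the new colour of
`v` consists of the old one and the multiset, over all vertices `x`, of the `k`-tuples of old colours
of `v[1/x], …, v[k/x]`.  Here the colours are compared, not named: `wl R r v w` says that `v` and `w`
have the same colour after `r` rounds, when `R` is the relation same initial colour (between the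
`k`-tuples of one or of two graphs).  `Indist R r` says that after `r` rounds the multisets of the
colours of all `k`-tuples of the two graphs agree, so the algorithm has not distinguished them.

Proof idea: the functions of the colour after `r` rounds are the entries of a self-adjoint linear space
`L r` of complex block diagonal matrices of order `N = n ^ (k - 1)`, `1 ∈ L 0`,
`L r * L r ⊆ L (r + 1)`, and the colouring is stable when `L r = L (r + 1)`.  Theorem
(`Tower.stationary`): for every such sequence of spaces of `N × N` matrices `L r = L (r + 1)` for some
`r ≤ 12 (N - 1)`.  There a subalgebra `A ⊆ L r` is enlarged step by step; a potential (number of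
minimal central projections etc. of `A`) between `0` and `2 (N - 1)` grows by `g` at the cost of at
most `6 g` rounds. -/

namespace Pool.Agent.Results.MP_f1a348_lc.WLRounds

open H529R2.WLI

/-- Let `k ≥ 2`.

Graphs: on a graph with `n` vertices the `k`-dimensional Weisfeiler-Leman algorithm is stable after at
most `12 (n ^ (k - 1) - 1)` rounds, and two graphs which it does not distinguish in
`12 (n ^ (k - 1) - 1) + 1` rounds (`n` the number of vertices of the first) it never distinguishes.

Structures: the same for structures with relations of arity at most `k`, given as arbitrary colourings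
`c`, `d` of the `k`-tuples; the initial colours are the atomic types. -/
theorem result :
    (∀ k : ℕ, 2 ≤ k → ∀ (V W : Type) [Fintype V] [Fintype W] (G : SimpleGraph V)
      (H : SimpleGraph W),
      (∀ r, 12 * (Fintype.card V ^ (k - 1) - 1) ≤ r →
        wl (k := k) (atomicG G G) r =
          wl (atomicG G G) (12 * (Fintype.card V ^ (k - 1) - 1))) ∧
      (Indist (k := k) (atomicG G H) (12 * (Fintype.card V ^ (k - 1) - 1) + 1) →
        ∀ r, Indist (k := k) (atomicG G H) r)) ∧
    (∀ k : ℕ, 2 ≤ k → ∀ (V W C : Type) [Fintype V] [Fintype W] (c : (Fin k → V) → C)
      (d : (Fin k → W) → C),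
      (∀ r, 12 * (Fintype.card V ^ (k - 1) - 1) ≤ r →
        wl (atomic c c) r = wl (atomic c c) (12 * (Fintype.card V ^ (k - 1) - 1))) ∧
      (Indist (atomic c d) (12 * (Fintype.card V ^ (k - 1) - 1) + 1) →
        ∀ r, Indist (atomic c d) r)) := by
  have main : ∀ k : ℕ, 2 ≤ k → ∀ (V W C : Type) [Fintype V] [Fintype W] (c : (Fin k → V) → C)
      (d : (Fin k → W) → C),
      (∀ r, 12 * (Fintype.card V ^ (k - 1) - 1) ≤ r →
        wl (atomic c c) r = wl (atomic c c) (12 * (Fintype.card V ^ (k - 1) - 1))) ∧
      (Indist (atomic c d) (12 * (Fintype.card V ^ (k - 1) - 1) + 1) →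
        ∀ r, Indist (atomic c d) r) := fun k hk V W C _ _ c d =>
    ⟨fun r hr => wl_eq_of_stable_le hr (atomic_stable hk c le_rfl), indist_all hk c d⟩
  refine ⟨fun k hk V W _ _ G H => ?_, main⟩
  rw [atomicG_eq hk G G, atomicG_eq hk G H]
  exact main k hk V W Prop (gcol hk G) (gcol hk H)

end Pool.Agent.Results.MP_f1a348_lc.WLRounds
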